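import Pool.Agent.H16.GZ.Targets4

/-!
Row SHB of the board gz: the kernels have bounded mass on the shell.
-/

set_option autoImplicit false

namespace Pool.Agent.H78.GZ

open MeasureTheory Pool.Agent.H34.GM Pool.Agent.H34.GZ

private lemma sb_aN_pow {m : ℕ} (hm : 1 ≤ m) (z : Mat m) : aN z ^ m = |z.det| := by
  unfold aN
  rw [← Real.rpow_natCast, ← Real.rpow_mul (abs_nonneg _), one_div, inv_mul_cancel₀, Real.rpow_one]
  have : (m : ℝ) ≠ 0 := by exact_mod_cast (by omega : m ≠ 0)
  exact this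

private lemma sb_aN_pos {m : ℕ} {z : Mat m} (h : z.det ≠ 0) : 0 < aN z :=
  Real.rpow_pos_of_pos (abs_pos.2 h) _

private lemma sb_sz_smul {m : ℕ} (r : ℝ) (z : Mat m) : sz (r • z) = |r| * sz z := by
  unfold sz
  rw [← Real.norm_eq_abs, ← norm_smul]
  rfl

private lemma sb_cont_det {m : ℕ} : Continuous (fun z : V m => (mt z).det) := by
  refine Continuous.matrix_det ?_
  exact continuous_pi fun i => continuous_pi fun j =>
    (continuous_apply j).comp (continuous_apply i)

private lemma sb_cont_sz {m : ℕ} : Continuous (fun z : V m => sz (mt z)) := by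
  unfold sz
  exact continuous_norm

private lemma sb_meas_shell {m : ℕ} : MeasurableSet (Shell m) := by
  have h : Continuous (fun z : V m => aN (mt z)) := by
    unfold aN
    exact sb_cont_det.abs.rpow_const fun _ => Or.inr (by positivity)
  exact (measurableSet_le measurable_const h.measurable).inter
    (measurableSet_lt h.measurable measurable_const)

open Classical in
theorem pf_SHB (hHAR : T_HAR) : T_SHB := by
  intro m c hm1 hc
  obtain ⟨h1, h2, h3, h4⟩ := hHAR m hm1
  obtain ⟨c', hc'⟩ : ∃ c' : ℝ, c' = max c (Real.exp 1 ^ m) := ⟨_, rfl⟩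
  have hc'1 : c ≤ c' := by rw [hc']; exact le_max_left _ _
  have hc'2 : Real.exp 1 ^ m ≤ c' := by rw [hc']; exact le_max_right _ _
  have hc'0 : 0 < c' := hc.trans_le hc'1
  have hfin := h4 c' hc'0
  obtain ⟨Z, hZ⟩ : ∃ Z : Set (V m), Z = {z : V m | sz (mt z) ≤ c' ∧ c'⁻¹ ≤ |(mt z).det|} :=
    ⟨_, rfl⟩
  rw [← hZ] at hfin
  have hZm : MeasurableSet Z := by
    rw [hZ]
    exact (measurableSet_le sb_cont_sz.measurable measurable_const).inter
      (measurableSet_le measurable_const sb_cont_det.abs.measurable)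
  have hfm : Measurable (Z.indicator (fun _ => (1 : ENNReal))) :=
    measurable_const.indicator hZm
  refine ⟨(hm m Z).toReal + 1, by positivity, ?_⟩
  intro α g hα hg
  have hA := sb_aN_pos hα
  have hG := sb_aN_pos hg
  obtain ⟨w, hw⟩ : ∃ w : Mat m, w = (aN α * aN g)⁻¹ • (α * g) := ⟨_, rfl⟩
  have hwd : |w.det| = 1 := by
    rw [hw, Matrix.det_smul, Fintype.card_fin, Matrix.det_mul, abs_mul, abs_mul, abs_pow,
      abs_of_pos (inv_pos.2 (mul_pos hA hG)), ← sb_aN_pow hm1 α, ← sb_aN_pow hm1 g, ← mul_pow,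
      ← mul_pow, inv_mul_cancel₀ (mul_pos hA hG).ne', one_pow]
  have hw0 : w.det ≠ 0 := by
    intro h
    rw [h, abs_zero] at hwd
    exact zero_ne_one hwd
  have key : ∀ z ∈ Shell m, (if sz (kk (aN α) (mt z) α g) ≤ c then (1 : ENNReal) else 0) ≤
      Z.indicator (fun _ => (1 : ENNReal)) (fun i j => ((mt z)⁻¹ * w) i j) := by
    intro z hz
    by_cases hs : sz (kk (aN α) (mt z) α g) ≤ c
    · rw [if_pos hs, Set.indicator_of_mem]
      rw [hZ]
      obtain ⟨hz1, hz2⟩ := hz
      have hz0 : 0 < aN (mt z) := by linarith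
      have hkk : kk (aN α) (mt z) α g = aN (mt z) • ((mt z)⁻¹ * w) := by
        unfold kk
        rw [hw, Matrix.mul_smul, smul_smul, Matrix.mul_assoc]
        congr 1
        field_simp
      have e1 : sz ((mt z)⁻¹ * w) ≤ c := by
        rw [hkk, sb_sz_smul, abs_of_pos hz0] at hs
        have h0 : 0 ≤ sz ((mt z)⁻¹ * w) := norm_nonneg _
        nlinarith
      have e2 : c'⁻¹ ≤ |((mt z)⁻¹ * w).det| := by
        rw [Matrix.det_mul, abs_mul, hwd, mul_one, Matrix.det_nonsing_inv, Ring.inverse_eq_inv',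
          abs_inv, ← sb_aN_pow hm1]
        refine inv_anti₀ (by positivity) ?_
        exact (pow_le_pow_left₀ hz0.le hz2.le m).trans hc'2
      exact ⟨e1.trans hc'1, e2⟩
    · rw [if_neg hs]
      exact zero_le
  have hfm2 : Measurable (fun u : V m => Z.indicator (fun _ => (1 : ENNReal))
      (fun i j => (mt u * w) i j)) := by
    refine hfm.comp ?_
    refine Continuous.measurable ?_
    refine continuous_pi fun i => continuous_pi fun j => ?_
    simp only [Matrix.mul_apply]
    refine continuous_finsetSum _ fun l _ => ?_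
    exact (continuous_apply_apply (ρ := fun _ _ : Fin m => ℝ) i l).mul continuous_const
  calc ∫⁻ z in Shell m, (if sz (kk (aN α) (mt z) α g) ≤ c then (1 : ENNReal) else 0) ∂(hm m)
      ≤ ∫⁻ z in Shell m, Z.indicator (fun _ => (1 : ENNReal))
          (fun i j => ((mt z)⁻¹ * w) i j) ∂(hm m) := setLIntegral_mono' sb_meas_shell key
    _ ≤ ∫⁻ z, Z.indicator (fun _ => (1 : ENNReal)) (fun i j => ((mt z)⁻¹ * w) i j) ∂(hm m) :=
        setLIntegral_le_lintegral _ _
    _ = ∫⁻ z, Z.indicator (fun _ => (1 : ENNReal)) (fun i j => (mt z * w) i j) ∂(hm m) :=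
        h2 (fun u => Z.indicator (fun _ => (1 : ENNReal)) (fun i j => (mt u * w) i j)) hfm2
    _ = ∫⁻ z, Z.indicator (fun _ => (1 : ENNReal)) z ∂(hm m) := (h1 w hw0 _ hfm).2
    _ = hm m Z := by rw [lintegral_indicator_const hZm, one_mul]
    _ ≤ ENNReal.ofReal ((hm m Z).toReal + 1) := by
        rw [ENNReal.ofReal_add ENNReal.toReal_nonneg zero_le_one, ENNReal.ofReal_toReal hfin.ne]
        exact le_self_add

end Pool.Agent.H78.GZ
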