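import Pool.Agent.H23.GZ.Targets5

/-!
Row TCK of the board gz: the local transform of the combination of dilates.
-/

set_option autoImplicit false

namespace Pool.Agent.H78.GZ

open MeasureTheory Pool.Agent.H34.GM Pool.Agent.H34.GZ

private lemma tck_mem {m : ℕ} {K n : Fin m → ℕ} (h : n ∈ nK K) (j : Fin m) : n j ≤ K j := by
  unfold nK at h
  rw [Fintype.mem_piFinset] at h
  have := Finset.mem_range.1 (h j)
  omega

private lemma tck_tw1 {m : ℕ} (n : Fin m → ℕ) : 1 ≤ tw n :=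
  Real.one_le_rpow (by norm_num) (by positivity)

private lemma tck_tw2 {m : ℕ} (hm1 : 1 ≤ m) {B : ℝ} {K n : Fin m → ℕ} (hK : ∀ j, (K j : ℝ) ≤ B)
    (h : n ∈ nK K) : tw n ≤ (2 : ℝ) ^ B := by
  unfold tw
  refine Real.rpow_le_rpow_of_exponent_le (by norm_num) ?_
  have hm0 : (0 : ℝ) < m := by exact_mod_cast hm1
  rw [div_le_iff₀ hm0]
  push_cast
  calc ∑ j, (n j : ℝ) ≤ ∑ _j : Fin m, B := Finset.sum_le_sum fun j _ => by
        have : (n j : ℝ) ≤ K j := by exact_mod_cast tck_mem h j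
        exact this.trans (hK j)
    _ = B * m := by rw [Finset.sum_const, Finset.card_univ, Fintype.card_fin, nsmul_eq_mul]; ring

private lemma tck_cK {m : ℕ} (hP : ∀ (K n : ℕ), |(pK K).coeff n| ≤ 2 ^ K) {B : ℝ} (hB : 0 ≤ B)
    {K n : Fin m → ℕ} {c : Fin m → ℂ} (hK : ∀ j, (K j : ℝ) ≤ B ∧ ‖c j‖ ≤ B) (h : n ∈ nK K) :
    ‖cK K c n‖ ≤ ((2 : ℝ) ^ B * (1 + B) ^ B) ^ m := by
  unfold cK
  rw [norm_prod]
  calc ∏ j, ‖(((pK (K j)).coeff (n j) : ℝ) : ℂ) * c j ^ n j‖
      ≤ ∏ _j : Fin m, ((2 : ℝ) ^ B * (1 + B) ^ B) := by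
        refine Finset.prod_le_prod (fun j _ => norm_nonneg _) fun j _ => ?_
        rw [norm_mul, norm_pow, Complex.norm_real, Real.norm_eq_abs]
        have hn : (n j : ℝ) ≤ B := le_trans (by exact_mod_cast tck_mem h j) (hK j).1
        refine mul_le_mul ?_ ?_ (by positivity) (by positivity)
        · refine (hP _ _).trans ?_
          rw [← Real.rpow_natCast]
          exact Real.rpow_le_rpow_of_exponent_le (by norm_num) (hK j).1
        · calc ‖c j‖ ^ n j ≤ (1 + B) ^ n j :=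
                pow_le_pow_left₀ (norm_nonneg _) (by linarith [(hK j).2]) _
            _ = (1 + B) ^ ((n j : ℕ) : ℝ) := (Real.rpow_natCast _ _).symm
            _ ≤ (1 + B) ^ B := Real.rpow_le_rpow_of_exponent_le (by linarith) hn
    _ = _ := by rw [Finset.prod_const, Finset.card_univ, Fintype.card_fin]

private lemma tck_card {m : ℕ} {B : ℝ} {K : Fin m → ℕ} (hK : ∀ j, (K j : ℝ) ≤ B) :
    ((nK K).card : ℝ) ≤ (B + 1) ^ m := by
  unfold nK
  rw [Fintype.card_piFinset]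
  push_cast
  calc ∏ j, ((Finset.range (K j + 1)).card : ℝ) ≤ ∏ _j : Fin m, (B + 1) := by
        refine Finset.prod_le_prod (fun j _ => Nat.cast_nonneg _) fun j _ => ?_
        rw [Finset.card_range]
        push_cast
        linarith [hK j]
    _ = _ := by rw [Finset.prod_const, Finset.card_univ, Fintype.card_fin]

theorem pf_TCK (hTCM : T_TCM) (hPKB : T_PKB) : T_TCK := by
  intro m hm1 ε B K1 hε hB
  obtain ⟨c0, C1, r0, hc0, hC1, hr0, hT⟩ := hTCM m hm1
  obtain ⟨E, hE⟩ : ∃ E : ℝ, E = ((2 : ℝ) ^ B * (1 + B) ^ B) ^ m := ⟨_, rfl⟩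
  have hE0 : 0 < E := by rw [hE]; positivity
  obtain ⟨r1, hr1⟩ : ∃ r1 : ℝ, r1 = r0⁻¹ / 2 ^ B := ⟨_, rfl⟩
  have hr00 : 0 < r0 := by linarith
  have hr10 : 0 < r1 := by rw [hr1]; positivity
  obtain ⟨κ, hκ⟩ : ∃ κ : ℝ, κ = min (r1 ^ K1) (r1 ^ ((m : ℝ) ^ 2 / 2 + ε)) := ⟨_, rfl⟩
  have hκ0 : 0 < κ := by
    rw [hκ]
    exact lt_min (by positivity) (Real.rpow_pos_of_pos hr10 _)
  refine ⟨c0, (B + 1) ^ m * E * C1 / κ, hc0, by positivity, ?_⟩
  intro mu K c δ M f hmu hK hδ hδ' hδc hM hmeas hf hsupp r hr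
  have hT' := hT mu δ M f hmu hδ hδ' hδc hM hf hsupp
  have htw : ∀ n : Fin m → ℕ, 0 < r * tw n := fun n =>
    mul_pos hr (lt_of_lt_of_le one_pos (tck_tw1 n))
  have hsum : th1 (eK K c f) mu r =
      ∑ n ∈ nK K, (cK K c n * ((tw n ^ (m ^ 2))⁻¹ : ℝ)) * th1 f mu (r * tw n) := by
    unfold th1
    have h1 : ∀ z : V m, eK K c f ((r⁻¹ * (aN (mt z))⁻¹) • mt z) * pw mu (mt z) =
        ∑ n ∈ nK K, (cK K c n * ((tw n ^ (m ^ 2))⁻¹ : ℝ)) *
          (f (((r * tw n)⁻¹ * (aN (mt z))⁻¹) • mt z) * pw mu (mt z)) := by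
      intro z
      unfold eK
      rw [Finset.sum_mul]
      refine Finset.sum_congr rfl fun n _ => ?_
      rw [smul_smul, show (tw n)⁻¹ * (r⁻¹ * (aN (mt z))⁻¹) = (r * tw n)⁻¹ * (aN (mt z))⁻¹ by
        rw [mul_inv]; ring]
      ring
    simp_rw [h1]
    rw [integral_finsetSum]
    · refine Finset.sum_congr rfl fun n _ => ?_
      rw [integral_const_mul]
    · intro n _
      exact ((hT' (r * tw n) (htw n)).2.2 hmeas).const_mul _
  have hmin0 : 0 ≤ min (r ^ K1) (r ^ ((m : ℝ) ^ 2 / 2 + ε)) :=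
    le_min (by positivity) (Real.rpow_nonneg hr.le _)
  by_cases hall : ∀ n ∈ nK K, th1 f mu (r * tw n) = 0
  · rw [hsum, Finset.sum_eq_zero (fun n hn => by rw [hall n hn, mul_zero]), norm_zero]
    positivity
  push Not at hall
  obtain ⟨n0, hn0, hne⟩ := hall
  have hlow := ((hT' (r * tw n0) (htw n0)).2.1 hne).1
  have hrr : r1 ≤ r := by
    rw [hr1, div_le_iff₀ (by positivity)]
    exact hlow.trans (mul_le_mul_of_nonneg_left (tck_tw2 hm1 (fun j => (hK j).1) hn0) hr.le)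
  have hκr : κ ≤ min (r ^ K1) (r ^ ((m : ℝ) ^ 2 / 2 + ε)) := by
    rw [hκ]
    refine min_le_min (pow_le_pow_left₀ hr10.le hrr _) ?_
    exact Real.rpow_le_rpow hr10.le hrr (by positivity)
  have hbd : ‖th1 (eK K c f) mu r‖ ≤ (B + 1) ^ m * E * C1 * M := by
    rw [hsum]
    calc ‖∑ n ∈ nK K, (cK K c n * ((tw n ^ (m ^ 2))⁻¹ : ℝ)) * th1 f mu (r * tw n)‖
        ≤ ∑ n ∈ nK K, E * (C1 * M) := by
          refine (norm_sum_le _ _).trans (Finset.sum_le_sum fun n hn => ?_)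
          rw [norm_mul, norm_mul, Complex.norm_real, Real.norm_eq_abs]
          have e1 : ‖cK K c n‖ ≤ E := by
            rw [hE]
            exact tck_cK hPKB.2.2 hB hK hn
          have e2 : |(tw n ^ (m ^ 2))⁻¹| ≤ 1 := by
            have h1 := one_le_pow₀ (tck_tw1 n) (n := m ^ 2)
            rw [abs_of_pos (by positivity)]
            exact inv_le_one_of_one_le₀ h1
          have e3 := (hT' (r * tw n) (htw n)).1
          calc ‖cK K c n‖ * |(tw n ^ (m ^ 2))⁻¹| * ‖th1 f mu (r * tw n)‖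
              ≤ E * 1 * (C1 * M) := by
                refine mul_le_mul (mul_le_mul e1 e2 (abs_nonneg _) hE0.le) e3 (norm_nonneg _)
                  (by positivity)
            _ = E * (C1 * M) := by ring
      _ = ((nK K).card : ℝ) * (E * (C1 * M)) := by rw [Finset.sum_const, nsmul_eq_mul]
      _ ≤ (B + 1) ^ m * (E * (C1 * M)) :=
          mul_le_mul_of_nonneg_right (tck_card fun j => (hK j).1) (by positivity)
      _ = (B + 1) ^ m * E * C1 * M := by ring
  refine hbd.trans ?_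
  have h5 : (B + 1) ^ m * E * C1 * M = (B + 1) ^ m * E * C1 / κ * M * κ := by
    field_simp
  rw [h5]
  exact mul_le_mul_of_nonneg_left hκr (by positivity)

end Pool.Agent.H78.GZ
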